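import Pool.Agent.W131.LS.Dcnt

/-!
IM-SELL, part 1: the pigeonhole principle.
-/

set_option autoImplicit false

namespace Pool.Agent.W673.IM

open Pool.Agent.W131.LS

variable {S : Finset ℕ}

theorem pr_prime_dvd (hS : ∀ p ∈ S, p.Prime ∧ 5 ≤ p) {T : Finset ℕ} (hT : T ⊆ S) {p : ℕ}
    (hp : p.Prime) (h : p ∣ pr T) : p ∈ S := by
  unfold pr at h
  obtain ⟨u, hu, hpu⟩ := (hp.prime.dvd_finsetProd_iff _).1 h
  have h1 := hS u (hT hu)
  have h2 : p = u := (Nat.prime_dvd_prime_iff_eq hp h1.1).1 hpu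
  rw [h2]
  exact hT hu

theorem pr_cop6 (hS : ∀ p ∈ S, p.Prime ∧ 5 ≤ p) {T : Finset ℕ} (hT : T ⊆ S) :
    pr T % 2 = 1 ∧ pr T % 3 ≠ 0 := by
  constructor
  · by_contra h
    have h2 : 2 ∣ pr T := by omega
    have := (hS 2 (pr_prime_dvd hS hT Nat.prime_two h2)).2
    omega
  · intro h
    have h2 : 3 ∣ pr T := Nat.dvd_of_mod_eq_zero h
    have := (hS 3 (pr_prime_dvd hS hT Nat.prime_three h2)).2
    omega

theorem pr_mod24 (hS : ∀ p ∈ S, p.Prime ∧ 5 ≤ p) {T : Finset ℕ} (hT : T ⊆ S) :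
    pr T % 24 ∈ ({1, 5, 7, 11, 13, 17, 19, 23} : Finset ℕ) := by
  have h := pr_cop6 hS hT
  simp only [Finset.mem_insert, Finset.mem_singleton]
  omega

theorem pr_cop {T : Finset ℕ} (hT : T ⊆ S) {q : ℕ}
    (hq : ∀ p ∈ S, Nat.Coprime p q) : Int.gcd (pr T : ℤ) (q : ℤ) = 1 := by
  have h1 : Nat.Coprime (pr T) q := by
    unfold pr
    apply Nat.Coprime.prod_left
    intro p hp
    exact hq p (hT hp)
  exact_mod_cast h1

theorem pr_sqfree (hS : ∀ p ∈ S, p.Prime ∧ 5 ≤ p) {T : Finset ℕ} (hT : T ⊆ S) :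
    Squarefree (pr T) := by
  unfold pr
  induction T using Finset.induction_on with
  | empty =>
    rw [Finset.prod_empty]
    exact squarefree_one
  | insert p U hp ih =>
    rw [Finset.prod_insert hp]
    have h1 := hS p (hT (Finset.mem_insert_self p U))
    have hU := (Finset.subset_insert p U).trans hT
    have h2 : Nat.Coprime p (∏ x ∈ U, x) := by
      apply Nat.Coprime.prod_right
      intro u hu
      have h3 := hS u (hU hu)
      refine (Nat.coprime_primes h1.1 h3.1).2 ?_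
      rintro rfl
      exact hp hu
    rw [Nat.squarefree_mul h2]
    exact ⟨h1.1.prime.squarefree, ih hU⟩

theorem pr_injg (hS : ∀ p ∈ S, p.Prime ∧ 5 ≤ p) {T U : Finset ℕ} (hT : T ⊆ S) (hU : U ⊆ S)
    (h : pr T = pr U) : T = U := by
  have h1 : (∏ p ∈ T, p).primeFactors = T :=
    Nat.primeFactors_prod (fun p hp => (hS p (hT hp)).1)
  have h2 : (∏ p ∈ U, p).primeFactors = U :=
    Nat.primeFactors_prod (fun p hp => (hS p (hU hp)).1)
  unfold pr at h
  rw [← h1, ← h2, h]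

theorem sdf_subg {T U : Finset ℕ} (hT : T ⊆ S) (hU : U ⊆ S) : sdf T U ⊆ S :=
  Finset.union_subset (Finset.sdiff_subset.trans hT) (Finset.sdiff_subset.trans hU)

theorem sq_mod24 {n : ℕ} (h : n % 24 ∈ ({1, 5, 7, 11, 13, 17, 19, 23} : Finset ℕ)) :
    n ^ 2 % 24 = 1 := by
  simp only [Finset.mem_insert, Finset.mem_singleton] at h
  rw [Nat.pow_mod]
  rcases h with h1 | h1 | h1 | h1 | h1 | h1 | h1 | h1 <;> rw [h1]

theorem sdf_mod24 (hS : ∀ p ∈ S, p.Prime ∧ 5 ≤ p) {T U : Finset ℕ} (hT : T ⊆ S)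
    (h : pr T % 24 = pr U % 24) : pr (sdf T U) % 24 = 1 := by
  have h1 := pr_sdf T U
  have h2 : pr T * pr U % 24 = 1 := by
    rw [Nat.mul_mod, ← h, ← Nat.mul_mod, ← pow_two]
    exact sq_mod24 (pr_mod24 hS hT)
  have h3 := sq_mod24 (pr_mod24 hS ((Finset.inter_subset_left (s₁ := T) (s₂ := U)).trans hT))
  rw [← h1, Nat.mul_mod, h3, mul_one, Nat.mod_mod] at h2
  exact h2

theorem sdf_jacg (hS : ∀ p ∈ S, p.Prime ∧ 5 ≤ p) {T U : Finset ℕ} (hT : T ⊆ S) (hU : U ⊆ S)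
    {q : ℕ} (hq : ∀ p ∈ S, Nat.Coprime p q)
    (h : jacobiSym (pr T : ℤ) q = 1 ↔ jacobiSym (pr U : ℤ) q = 1) :
    jacobiSym (pr (sdf T U) : ℤ) q = 1 := by
  have h1 : ((pr (sdf T U) : ℤ)) * (pr (T ∩ U) : ℤ) ^ 2 = (pr T : ℤ) * (pr U : ℤ) := by
    exact_mod_cast pr_sdf T U
  have h3 : jacobiSym ((pr (sdf T U) : ℤ) * (pr (T ∩ U) : ℤ) ^ 2) q =
      jacobiSym ((pr T : ℤ) * (pr U : ℤ)) q := by rw [h1]
  rw [jacobiSym.mul_left, jacobiSym.mul_left, jacobiSym.pow_left] at h3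
  have hI := jacobiSym.eq_one_or_neg_one
    (pr_cop ((Finset.inter_subset_left (s₁ := T) (s₂ := U)).trans hT) hq)
  have hI2 : jacobiSym (pr (T ∩ U) : ℤ) q ^ 2 = 1 := by
    rcases hI with h4 | h4 <;> rw [h4] <;> norm_num
  rw [hI2, mul_one] at h3
  rw [h3]
  have hT' := jacobiSym.eq_one_or_neg_one (pr_cop hT hq)
  have hU' := jacobiSym.eq_one_or_neg_one (pr_cop hU hq)
  rcases hT' with h4 | h4
  · rw [h4, h.1 h4, mul_one]
  · rcases hU' with h5 | h5
    · have h6 := h.2 h5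
      rw [h6] at h4
      norm_num at h4
    · rw [h4, h5]
      norm_num

/-- the invariants -/
noncomputable def invg (Q : Finset ℕ) (T : Finset ℕ) : ℕ × Finset ℕ :=
  (pr T % 24, Q.filter (fun q => jacobiSym (pr T : ℤ) q = 1))

theorem dcntg (hS : ∀ p ∈ S, p.Prime ∧ 5 ≤ p) (Q : Finset ℕ)
    (hQ : ∀ q ∈ Q, ∀ p ∈ S, Nat.Coprime p q) : ∃ F : Finset ℕ,
    (∀ D ∈ F, Squarefree D ∧ D % 24 = 1 ∧ (∀ p : ℕ, p.Prime → p ∣ D → p ∈ S) ∧
      ∀ q ∈ Q, jacobiSym (D : ℤ) q = 1) ∧ 2 ^ S.card ≤ 2 ^ (Q.card + 3) * F.card := by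
  set s := S.powerset with hs
  set t := ({1, 5, 7, 11, 13, 17, 19, 23} : Finset ℕ) ×ˢ Q.powerset with ht
  have hmaps : ∀ T ∈ s, invg Q T ∈ t := by
    intro T hT
    rw [hs, Finset.mem_powerset] at hT
    rw [ht, Finset.mem_product]
    exact ⟨pr_mod24 hS hT, Finset.mem_powerset.2 (Finset.filter_subset _ _)⟩
  have htne : t.Nonempty := ⟨(1, ∅), Finset.mem_product.2 ⟨by decide, Finset.empty_mem_powerset _⟩⟩
  obtain ⟨y, hy, hmax⟩ := Finset.exists_max_image t
    (fun y => (s.filter (fun T => invg Q T = y)).card) htne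
  set F := s.filter (fun T => invg Q T = y) with hF
  have hcard : s.card ≤ F.card * t.card :=
    Finset.card_le_mul_card_image_of_maps_to hmaps F.card hmax
  have hscard : s.card = 2 ^ S.card := Finset.card_powerset _
  have htcard : t.card = 2 ^ (Q.card + 3) := by
    rw [ht, Finset.card_product, Finset.card_powerset, pow_add, mul_comm]
    congr 1
  have hFne : F.Nonempty := by
    rw [Finset.nonempty_iff_ne_empty]
    intro h
    rw [h, Finset.card_empty, zero_mul, hscard] at hcard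
    have : 0 < 2 ^ S.card := by positivity
    omega
  obtain ⟨U, hU⟩ := hFne
  have hmem : ∀ T ∈ F, T ⊆ S ∧ invg Q T = y := by
    intro T hT
    have h1 := Finset.mem_filter.1 hT
    exact ⟨Finset.mem_powerset.1 h1.1, h1.2⟩
  have hU' := hmem U hU
  refine ⟨F.image (fun T => pr (sdf T U)), ?_, ?_⟩
  · intro d hd
    obtain ⟨T, hT, rfl⟩ := Finset.mem_image.1 hd
    have hT' := hmem T hT
    have hinv : invg Q T = invg Q U := hT'.2.trans hU'.2.symm
    have h8 : pr T % 24 = pr U % 24 := congrArg Prod.fst hinv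
    have hfil : Q.filter (fun q => jacobiSym (pr T : ℤ) q = 1) =
      Q.filter (fun q => jacobiSym (pr U : ℤ) q = 1) := congrArg Prod.snd hinv
    have hsub := sdf_subg hT'.1 hU'.1
    refine ⟨pr_sqfree hS hsub, sdf_mod24 hS hT'.1 h8, fun p hp hpd => pr_prime_dvd hS hsub hp hpd,
      ?_⟩
    intro q hq
    apply sdf_jacg hS hT'.1 hU'.1 (hQ q hq)
    constructor
    · intro h
      have h1 : q ∈ Q.filter (fun q => jacobiSym (pr T : ℤ) q = 1) :=
        Finset.mem_filter.2 ⟨hq, h⟩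
      rw [hfil] at h1
      exact (Finset.mem_filter.1 h1).2
    · intro h
      have h1 : q ∈ Q.filter (fun q => jacobiSym (pr U : ℤ) q = 1) :=
        Finset.mem_filter.2 ⟨hq, h⟩
      rw [← hfil] at h1
      exact (Finset.mem_filter.1 h1).2
  · have himg : (F.image (fun T => pr (sdf T U))).card = F.card := by
      apply Finset.card_image_of_injOn
      intro T hT T' hT' h
      have h1 := hmem T (Finset.mem_coe.1 hT)
      have h2 := hmem T' (Finset.mem_coe.1 hT')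
      exact sdf_inj (pr_injg hS (sdf_subg h1.1 hU'.1) (sdf_subg h2.1 hU'.1) h)
    rw [himg, ← htcard, ← hscard, mul_comm]
    exact hcard

end Pool.Agent.W673.IM
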