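import Pool.Agent.W307.IM.Stm
import Pool.Agent.W605.LS.PTS
import Pool.Agent.W673.IM.Pig

/-!
IM-SELL, part 2: the lower bound for the 2-Selmer group.
-/

set_option autoImplicit false

namespace Pool.Agent.W673.IM

open Pool.Agent.W307.IM

/-- the function belonging to `D` -/
def dfun (a b D : ℤ) : ℤ → ℤ := fun e => if e = 2 * a - b ∨ e = 2 * b - a then D else 1

theorem root_iff (a b e : ℤ) (h : e ^ 3 + cA a b * e + cB a b = 0) :
    e = -(a + b) ∨ e = 2 * a - b ∨ e = 2 * b - a := by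
  have h1 : (e + (a + b)) * ((e - (2 * a - b)) * (e - (2 * b - a))) = 0 := by
    rw [← h]
    unfold cA cB
    ring
  rcases mul_eq_zero.mp h1 with h2 | h2
  · left; linarith
  · rcases mul_eq_zero.mp h2 with h3 | h3
    · right; left; linarith
    · right; right; linarith

theorem local_mk {K : Type} [Field K] (a b D : ℤ) (ha : a ≠ 0) (hb : b ≠ 0) (x y : K)
    (hy : y ≠ 0) (hxy : y ^ 2 = (x + (a + b)) * (x - (2 * a - b)) * (x - (2 * b - a)))
    (s1 : IsSquare (x + (a + b))) (s2 : IsSquare ((x - (2 * a - b)) * D))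
    (s3 : IsSquare ((x - (2 * b - a)) * D)) :
    Local K (cA a b) (cB a b) (dfun a b D) := by
  refine ⟨x, y, hy, ?_, ?_⟩
  · rw [hxy]
    unfold cA cB
    push_cast
    ring
  · intro e he
    rcases root_iff a b e he with h | h | h
    · have h1 : ¬ (e = 2 * a - b ∨ e = 2 * b - a) := by
        rintro (h2 | h2) <;> omega
      have h2 : dfun a b D e = 1 := by
        unfold dfun
        rw [if_neg h1]
      rw [h2, h]
      have h3 : (x - ((-(a + b) : ℤ) : K)) * ((1 : ℤ) : K) = x + (a + b) := by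
        push_cast
        ring
      rw [h3]
      exact s1
    · have h2 : dfun a b D e = D := by
        unfold dfun
        rw [if_pos (Or.inl h)]
      rw [h2, h]
      push_cast
      exact s2
    · have h2 : dfun a b D e = D := by
        unfold dfun
        rw [if_pos (Or.inr h)]
      rw [h2, h]
      push_cast
      exact s3

theorem local_sq {K : Type} [Field K] (a b D : ℤ) (ha : a ≠ 0) (hb : b ≠ 0) (x k1 k2 k3 k : K)
    (h1 : k1 ≠ 0) (h2 : k2 ≠ 0) (h3 : k3 ≠ 0) (e1 : k1 ^ 2 = x + (a + b))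
    (e2 : k2 ^ 2 = x - (2 * a - b)) (e3 : k3 ^ 2 = x - (2 * b - a)) (hk : k ^ 2 = (D : K)) :
    Local K (cA a b) (cB a b) (dfun a b D) := by
  refine local_mk a b D ha hb x (k1 * k2 * k3) (mul_ne_zero (mul_ne_zero h1 h2) h3) ?_ ?_ ?_ ?_
  · rw [← e1, ← e2, ← e3]
    ring
  · exact ⟨k1, by rw [← e1]; ring⟩
  · exact ⟨k2 * k, by rw [← e2, ← hk]; ring⟩
  · exact ⟨k3 * k, by rw [← e3, ← hk]; ring⟩

theorem local_rp {K : Type} [Field K] [CharZero K] (a b D : ℤ) (ha : a ≠ 0) (hb : b ≠ 0)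
    (hD : D ≠ 0) (h : Rp (3 * a) (3 * b) K D) : Local K (cA a b) (cB a b) (dfun a b D) := by
  obtain ⟨x, y, k, hk, hx, hy, hn1, hn2, hxy⟩ := h
  push_cast at hn1 hn2 hxy
  have hDK : (D : K) ≠ 0 := by exact_mod_cast hD
  have hx0 : x ≠ 0 := by
    rw [hx]
    exact mul_ne_zero hDK (pow_ne_zero 2 hk)
  set c : K := 3 * (a : K) - 3 * b with hc
  have hc1 : x - c ≠ 0 := sub_ne_zero.mpr hn1
  have hc2 : x + c ≠ 0 := by
    intro h0
    apply hn2
    rw [hc] at h0
    linear_combination h0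
  have h2 : (2 : K) ≠ 0 := two_ne_zero
  refine local_mk a b D ha hb ((x + 2 * (3 * a + 3 * b) + c ^ 2 / x) / 4 - (a + b))
    (y * (x - c) * (x + c) / (8 * x ^ 2)) ?_ ?_ ?_ ?_ ?_
  · apply div_ne_zero
    · exact mul_ne_zero (mul_ne_zero hy hc1) hc2
    · exact mul_ne_zero (by norm_num) (pow_ne_zero 2 hx0)
  · have e1 : (x + 2 * (3 * a + 3 * b) + c ^ 2 / x) / 4 - (a + b) + (a + b) =
        y ^ 2 / (4 * x ^ 2) := by
      rw [hxy]
      field_simp
      ring
    have e2 : (x + 2 * (3 * a + 3 * b) + c ^ 2 / x) / 4 - (a + b) - (2 * a - b) =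
        (x - c) ^ 2 / (4 * x) := by
      rw [hc]
      field_simp
      ring
    have e3 : (x + 2 * (3 * a + 3 * b) + c ^ 2 / x) / 4 - (a + b) - (2 * b - a) =
        (x + c) ^ 2 / (4 * x) := by
      rw [hc]
      field_simp
      ring
    rw [e1, e2, e3]
    field_simp
    ring
  · refine ⟨y / (2 * x), ?_⟩
    have e1 : (x + 2 * (3 * a + 3 * b) + c ^ 2 / x) / 4 - (a + b) + (a + b) =
        y ^ 2 / (4 * x ^ 2) := by
      rw [hxy]
      field_simp
      ring
    rw [e1]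
    field_simp
    ring
  · refine ⟨(x - c) / (2 * k), ?_⟩
    have e2 : (x + 2 * (3 * a + 3 * b) + c ^ 2 / x) / 4 - (a + b) - (2 * a - b) =
        (x - c) ^ 2 / (4 * x) := by
      rw [hc]
      field_simp
      ring
    rw [e2]
    have e4 : (x - c) ^ 2 / (4 * x) * D = (x - c) ^ 2 * D / (4 * (D * k ^ 2)) := by
      rw [← hx]
      ring
    rw [e4]
    field_simp
    ring
  · refine ⟨(x + c) / (2 * k), ?_⟩
    have e3 : (x + 2 * (3 * a + 3 * b) + c ^ 2 / x) / 4 - (a + b) - (2 * b - a) =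
        (x + c) ^ 2 / (4 * x) := by
      rw [hc]
      field_simp
      ring
    rw [e3]
    have e4 : (x + c) ^ 2 / (4 * x) * D = (x + c) ^ 2 * D / (4 * (D * k ^ 2)) := by
      rw [← hx]
      ring
    rw [e4]
    field_simp
    ring

theorem local_real (a b D : ℤ) (ha : a ≠ 0) (hb : b ≠ 0) (hD : 0 < D) :
    Local ℝ (cA a b) (cB a b) (dfun a b D) := by
  set x : ℝ := |(a : ℝ)| + |(b : ℝ)| + (|(a : ℝ)| + |(b : ℝ)|) + 1 with hx
  have h1 : 0 < x + (a + b) := by
    have := neg_abs_le (a : ℝ); have := neg_abs_le (b : ℝ)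
    have := abs_nonneg (a : ℝ); have := abs_nonneg (b : ℝ)
    rw [hx]; linarith
  have h2 : 0 < x - (2 * a - b) := by
    have := le_abs_self (a : ℝ); have := neg_abs_le (b : ℝ)
    have := abs_nonneg (a : ℝ); have := abs_nonneg (b : ℝ)
    rw [hx]; linarith
  have h3 : 0 < x - (2 * b - a) := by
    have := neg_abs_le (a : ℝ); have := le_abs_self (b : ℝ)
    have := abs_nonneg (a : ℝ); have := abs_nonneg (b : ℝ)
    rw [hx]; linarith
  exact local_sq a b D ha hb x (Real.sqrt (x + (a + b))) (Real.sqrt (x - (2 * a - b)))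
    (Real.sqrt (x - (2 * b - a))) (Real.sqrt (D : ℝ)) (Real.sqrt_pos.mpr h1).ne'
    (Real.sqrt_pos.mpr h2).ne' (Real.sqrt_pos.mpr h3).ne' (Real.sq_sqrt h1.le)
    (Real.sq_sqrt h2.le) (Real.sq_sqrt h3.le) (Real.sq_sqrt (by exact_mod_cast hD.le))

/-- `p ^ (-4) - e` is a nonzero square -/
theorem sq_near (p : ℕ) [hp : Fact p.Prime] (e : ℤ) :
    ∃ k : ℚ_[p], k ≠ 0 ∧ k ^ 2 = ((p : ℚ_[p]) ^ 4)⁻¹ - e := by
  have hpp := hp.out
  have hp0 : (p : ℚ_[p]) ≠ 0 := by exact_mod_cast hpp.ne_zero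
  have hn0 : (1 - e * (p : ℤ) ^ 4 : ℤ) ≠ 0 := by
    intro h
    have h1 : (p : ℤ) ∣ 1 := ⟨e * (p : ℤ) ^ 3, by linarith⟩
    exact hpp.one_lt.ne' (by exact_mod_cast Int.eq_one_of_dvd_one (by positivity) h1)
  have hk : ∃ k : ℚ_[p], k ^ 2 = ((1 - e * (p : ℤ) ^ 4 : ℤ) : ℚ_[p]) := by
    by_cases h2 : p = 2
    · subst h2
      apply Pool.Agent.W605.LS.ptq.2
      norm_num
      omega
    · apply Pool.Agent.W605.LS.ptq.1 p _ h2
      have h3 : (1 - e * (p : ℤ) ^ 4) % (p : ℤ) = 1 % (p : ℤ) := by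
        apply Int.emod_emod_of_dvd _ (dvd_refl _) |>.symm.trans
        rw [Int.sub_emod]
        have : e * (p : ℤ) ^ 4 % (p : ℤ) = 0 :=
          Int.emod_eq_zero_of_dvd (Dvd.dvd.mul_left (dvd_pow_self _ (by norm_num)) e)
        rw [this]
        simp
      rw [jacobiSym.mod_left, h3, ← jacobiSym.mod_left, jacobiSym.one_left]
  obtain ⟨k, hk⟩ := hk
  have hk0 : k ≠ 0 := by
    rintro rfl
    apply hn0
    have : ((1 - e * (p : ℤ) ^ 4 : ℤ) : ℚ_[p]) = 0 := by rw [← hk]; ring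
    exact_mod_cast this
  refine ⟨k / (p : ℚ_[p]) ^ 2, div_ne_zero hk0 (pow_ne_zero 2 hp0), ?_⟩
  rw [div_pow, hk]
  push_cast
  field_simp

theorem local_qp (p : ℕ) [hp : Fact p.Prime] (a b D : ℤ) (ha : a ≠ 0) (hb : b ≠ 0)
    (hk : ∃ k : ℚ_[p], k ^ 2 = (D : ℚ_[p])) : Local ℚ_[p] (cA a b) (cB a b) (dfun a b D) := by
  obtain ⟨k, hk⟩ := hk
  obtain ⟨k1, h1, e1⟩ := sq_near p (-(a + b))
  obtain ⟨k2, h2, e2⟩ := sq_near p (2 * a - b)
  obtain ⟨k3, h3, e3⟩ := sq_near p (2 * b - a)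
  refine local_sq a b D ha hb (((p : ℚ_[p]) ^ 4)⁻¹) k1 k2 k3 k h1 h2 h3 ?_ ?_ ?_ hk
  · rw [e1]; push_cast; ring
  · rw [e2]; push_cast; ring
  · rw [e3]; push_cast; ring

theorem sell_of : PG → PN → PT → SELL := by
  intro hPG hPN hPT a b ha hb hab hcop hfin
  have hS : ∀ p ∈ S2 a b, p.Prime ∧ 5 ≤ p := by
    intro p hp
    have h1 := Finset.mem_filter.1 hp
    exact ⟨Nat.prime_of_mem_primeFactors h1.1, h1.2.1⟩
  have hSd : ∀ p ∈ S2 a b, (p : ℤ) ∣ a - b ∧ jacobiSym (3 * a) p = 1 := by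
    intro p hp
    have h1 := Finset.mem_filter.1 hp
    exact ⟨Int.natCast_dvd.2 (Nat.dvd_of_mem_primeFactors h1.1), h1.2.2⟩
  have hT : ∀ q ∈ T2 a b, q.Prime ∧ 5 ≤ q ∧ (q : ℤ) ∣ a * b := by
    intro q hq
    have h1 := Finset.mem_filter.1 hq
    exact ⟨Nat.prime_of_mem_primeFactors h1.1, h1.2,
      Int.natCast_dvd.2 (Nat.dvd_of_mem_primeFactors h1.1)⟩
  have hcopST : ∀ q ∈ T2 a b, ∀ p ∈ S2 a b, Nat.Coprime p q := by
    intro q hq p hp
    rw [Nat.coprime_primes (hS p hp).1 (hT q hq).1]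
    rintro rfl
    have hpp : Prime (p : ℤ) := Nat.prime_iff_prime_int.mp (hS p hp).1
    have h1 := (hSd p hp).1
    have h2 := (hT p hq).2.2
    have h3 : (p : ℤ) ∣ a ∧ (p : ℤ) ∣ b := by
      rcases hpp.dvd_or_dvd h2 with h3 | h3
      · refine ⟨h3, ?_⟩
        have := dvd_sub h3 h1
        simpa using this
      · refine ⟨?_, h3⟩
        have := dvd_add h1 h3
        simpa using this
    exact hpp.not_isUnit (hcop.isUnit_of_dvd' h3.1 h3.2)
  obtain ⟨F, hF, hcard⟩ := dcntg hS (T2 a b) hcopST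
  refine hcard.trans (Nat.mul_le_mul_left _ ?_)
  -- injectivity
  have hinj : Set.InjOn (fun D : ℕ => dfun a b (D : ℤ)) (F : Set ℕ) := by
    intro D _ D' _ h
    have h1 := congrFun h (2 * a - b)
    simp only [dfun, true_or, if_true] at h1
    exact_mod_cast h1
  rw [← Set.ncard_coe_finset F, ← hinj.ncard_image]
  apply Set.ncard_le_ncard _ hfin
  rintro _ ⟨D, hD, rfl⟩
  obtain ⟨hsq, h24, hpd, hjac⟩ := hF D hD
  have hD0 : D ≠ 0 := by
    rintro rfl
    simp at h24
  have hDz : (D : ℤ) ≠ 0 := by exact_mod_cast hD0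
  refine ⟨?_, ?_, ?_, ?_⟩
  · intro e
    simp only [dfun]
    split_ifs
    · exact Int.squarefree_natCast.mpr hsq
    · exact squarefree_one
  · intro e he
    simp only [dfun]
    rw [if_neg]
    rintro (h | h)
    · apply he
      rw [h]
      unfold cA cB
      ring
    · apply he
      rw [h]
      unfold cA cB
      ring
  · exact local_real a b D ha hb (by exact_mod_cast Nat.pos_of_ne_zero hD0)
  · intro p hp
    have hpp := hp.out
    have hpz : Prime (p : ℤ) := Nat.prime_iff_prime_int.mp hpp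
    by_cases h2 : p = 2
    · subst h2
      apply local_qp 2 a b D ha hb
      apply Pool.Agent.W605.LS.ptq.2
      omega
    by_cases h3 : p = 3
    · subst h3
      apply local_qp 3 a b D ha hb
      apply Pool.Agent.W605.LS.ptq.1 3 _ (by norm_num)
      have h4 : (D : ℤ) % ((3 : ℕ) : ℤ) = 1 := by
        push_cast
        omega
      rw [jacobiSym.mod_left, h4, jacobiSym.one_left]
    have h5 : 5 ≤ p := by
      have := hpp.two_le
      by_contra h
      have h4 : p = 4 := by omega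
      rw [h4] at hpp
      exact absurd hpp (by norm_num)
    by_cases hT2 : p ∈ T2 a b
    · exact local_qp p a b D ha hb (Pool.Agent.W605.LS.ptq.1 p _ h2 (hjac p hT2))
    have hnab : ¬ (p : ℤ) ∣ a * b := by
      intro h
      apply hT2
      refine Finset.mem_filter.2 ⟨?_, h5⟩
      rw [Nat.mem_primeFactors]
      exact ⟨hpp, Int.natCast_dvd.1 h, Int.natAbs_ne_zero.mpr (mul_ne_zero ha hb)⟩
    have hna : ¬ (p : ℤ) ∣ a := fun h => hnab (h.mul_right b)
    have hnb : ¬ (p : ℤ) ∣ b := fun h => hnab (h.mul_left a)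
    have hn3 : ¬ (p : ℤ) ∣ 3 := by
      intro h
      have := Int.le_of_dvd (by norm_num) h
      omega
    have hn3a : ¬ (p : ℤ) ∣ 3 * a := fun h => (hpz.dvd_or_dvd h).elim hn3 hna
    have hn3b : ¬ (p : ℤ) ∣ 3 * b := fun h => (hpz.dvd_or_dvd h).elim hn3 hnb
    by_cases hd : (p : ℤ) ∣ a - b
    · have hd3 : (p : ℤ) ∣ 3 * a - 3 * b := by
        rw [← mul_sub]
        exact hd.mul_left 3
      by_cases hpD : (p : ℤ) ∣ (D : ℤ)
      · have hpS := hpd p hpp (by exact_mod_cast hpD)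
        apply local_rp a b D ha hb hDz
        apply hPT p (3 * a) (3 * b) D h5 (hSd p hpS).2 hd3 hpD
        · intro h
          have h6 : p * p ∣ D := by
            have : ((p * p : ℕ) : ℤ) ∣ (D : ℤ) := by
              push_cast
              rw [← pow_two]
              exact h
            exact_mod_cast this
          have h7 := hsq p h6
          exact hpp.one_lt.ne' (Nat.isUnit_iff.mp h7)
        · intro h
          apply hab
          omega
      · rcases hPN p (3 * a) (3 * b) D h5 hn3a hd3 hpD with h | h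
        · exact local_qp p a b D ha hb h
        · exact local_rp a b D ha hb hDz h
    · have hpD : ¬ (p : ℤ) ∣ (D : ℤ) := by
        intro h
        exact hd (hSd p (hpd p hpp (by exact_mod_cast h))).1
      have hd3 : ¬ (p : ℤ) ∣ 3 * a - 3 * b := by
        rw [← mul_sub]
        exact fun h => (hpz.dvd_or_dvd h).elim hn3 hd
      rcases hPG p (3 * a) (3 * b) D h2 hn3a hn3b hd3 hpD with h | h
      · exact local_qp p a b D ha hb h
      · exact local_rp a b D ha hb hDz h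

end Pool.Agent.W673.IM
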